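import Pool.Agent.EXB.HilbMain

/-!
# Cayley graphs with expanding balls and actions on spaces that embed into Hilbert space

Let a finitely generated infinite group act by isometries on a space `X` which embeds coarsely
into a Hilbert space, and suppose that for each `R` some pair `x, g • x` is moved by at most `R`
by only finitely many elements of the group.  Then the balls of its Cayley graphs are not
uniform expanders.

Proof.  If the ball `B(n)` has Cheeger constant at least `ε`, then by the Poincaré inequality
half of its elements `y` have `y • x` in one ball of fixed radius, and `y⁻¹ • x` too.  For two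
such elements the product `y * g * z` determines `y` and `z` up to boundedly many choices, so
that `|B(n)| ^ 2 ≤ C * |B(2 * n)|`, with `C` independent of `n`.  If all balls are expanding this
gives `|B(n)| ≤ C * lam ^ n` for all `n`, which `ball_growth` excludes.
-/

set_option autoImplicit false

namespace Pool.Agent.Results.MP_41fc2e_co.CoarseStabilizers

open Pool.Agent.EXB

theorem result {Γ X H : Type*} [Group Γ] (hinf : Infinite Γ) [PseudoMetricSpace X]
    [MulAction Γ X] [IsIsometricSMul Γ X] [NormedAddCommGroup H] [InnerProductSpace ℝ H]
    (S : Set Γ) (hS : S.Finite) (hgen : Subgroup.closure S = ⊤) (f : X → H)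
    (hf : CoarseEmbedding f) (x : X)
    (hfix : ∀ R : ℝ, ∃ g : Γ, {h : Γ | dist x (h • x) ≤ R ∧ dist (g • x) (h • g • x) ≤ R}.Finite)
    (ε : ℝ) (hε : 0 < ε) : ∃ n : ℕ, ¬ CheegerGE (cayley S) (gball (cayley S) 1 n) ε := by
  by_contra hcon
  push Not at hcon
  exact hilb_main hinf S hS hgen f hf x hfix ε hε hcon

end Pool.Agent.Results.MP_41fc2e_co.CoarseStabilizers
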