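import Pool.Agent.XBL.Cayley

/-!
# Cayley graphs with a regular language of geodesics: the balls are not uniform expanders

See `Pool/Agent/XBL/Cayley.lean`.
-/

set_option autoImplicit false

open scoped Classical Topology
open Filter

namespace Pool.Agent.Results.MP_41fc2e_co.RegularGeodesics

open Pool.Agent.XBL

theorem result {Γ : Type*} [Group Γ] [Infinite Γ] (S : Finset Γ) (hS : ∀ s ∈ S, s⁻¹ ∈ S)
    (L : Language S) (hL : L.IsRegular)
    (hgeo : ∀ w ∈ L, (cayley S hS).dist 1 (wordValue w) = w.length)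
    (honto : ∀ g : Γ, ∃ w ∈ L, wordValue w = g)
    (K : ℕ) (hK : ∀ g : Γ, {w ∈ L | wordValue w = g}.Finite ∧
      {w ∈ L | wordValue w = g}.ncard ≤ K)
    (ε : ℝ) (hε : 0 < ε) :
    ∃ N : ℕ, ∀ l : ℕ, ∃ m, l ≤ m ∧
      {n | CheegerGE (cayley S hS) (gball (cayley S hS) 1 n) ε ∧
        m ≤ n + l ∧ n ≤ m}.ncard ≤ N :=
  regular_geodesics S hS L hL hgeo honto K hK ε hε

end Pool.Agent.Results.MP_41fc2e_co.RegularGeodesics
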