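import Pool.Agent.XBL.Thin

/-!
# Graphs with expanding balls: geodesics from a point are thin

See `Pool/Agent/XBL/Thin.lean` and `Pool/Agent/XBL/Criterion.lean`.
-/

set_option autoImplicit false

open scoped Classical Topology
open Filter

namespace Pool.Agent.Results.MP_41fc2e_co.ThinGeodesics

open Pool.Agent.XBL

theorem result (D : ℕ) (ε δ : ℝ) (hε : 0 < ε) (hδ : 0 < δ) : ∃ N : ℕ,
    ∀ (V : Type*) (G : SimpleGraph V), Infinite V → G.Connected →
      (∀ v, (G.neighborSet v).Finite ∧ (G.neighborSet v).ncard ≤ D) →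
      (expRadii G ε).Infinite →
      ∀ (o : V) (γ : V → ℕ → V), GeodesicsFrom G o γ → ∀ m : ℕ,
        {l | l ≤ m ∧ m - l ∈ expRadii G ε ∧
          δ * (gball G o m).ncard ≤
            {x ∈ gball G o m | l ≤ G.dist o x ∧
              δ * maxBall G (m - l) ≤
                (shadow G o γ m l (γ x l)).ncard}.ncard}.ncard ≤ N :=
  thin_geodesics D ε δ hε hδ

end Pool.Agent.Results.MP_41fc2e_co.ThinGeodesics
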